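import Mathlib
import Pool.Agent.H214.Gap.Null2

/-!
# Laurent polynomials with two long gaps: null Julia sets and invariant line fields

The rational maps `z ^ n A (1 / z) + B (z) / z ^ m + q (z) / z ^ D + t` of degree `n + m`, where `A`
and `B` are polynomials without zeros in the closed unit disc, `q` is any polynomial of degree at
most `2 D`, and `n`, `m` are large and comparable. For EVERY `t` the points of the plane which do
not escape to the attracting fixed point `∞` form a set of area at most `K n ^ (-3/2)`, which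
contains the Julia set and every invariant line field on it; and for all `t` outside a bounded set
of area at most `K n ^ (-5/4)`, in particular for almost every `t` and ALL large `n`, these sets
have area zero.
-/

set_option autoImplicit false

open Polynomial Filter Topology MeasureTheory

namespace Pool.Agent.Results.MP_70a088_an.LaurentGapsNullJulia

/-- The rational function `P / Q` of the plane. -/
noncomputable def map (P Q : ℂ[X]) : ℂ → ℂ := fun z => P.eval z / Q.eval z

/-- `f` is the rational map `P / Q` of the Riemann sphere, in lowest terms. -/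
def IsRationalMap (P Q : ℂ[X]) (f : OnePoint ℂ → OnePoint ℂ) : Prop :=
  IsCoprime P Q ∧ Q ≠ 0 ∧ Continuous f ∧
    ∀ z : ℂ, Q.eval z ≠ 0 → f (OnePoint.some z) = OnePoint.some (P.eval z / Q.eval z)

/-- The Fatou set: the points with a neighbourhood on which the iterates are equicontinuous (the
neighbourhoods `W` of the diagonal are the entourages of the uniform structure of the sphere). -/
def fatou (f : OnePoint ℂ → OnePoint ℂ) : Set (OnePoint ℂ) :=
  {x | ∃ U ∈ 𝓝 x, ∀ y ∈ U, ∀ W ∈ 𝓝ˢ (Set.diagonal (OnePoint ℂ)),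
    ∀ᶠ z in 𝓝 y, ∀ n : ℕ, (f^[n] y, f^[n] z) ∈ W}

/-- The finite points of the Julia set. -/
def julia (f : OnePoint ℂ → OnePoint ℂ) : Set ℂ := {z : ℂ | OnePoint.some z ∉ fatou f}

/-- The points of the plane whose orbits do not converge to `∞`. -/
def bounded (f : OnePoint ℂ → OnePoint ℂ) : Set ℂ :=
  {z : ℂ | ¬ Tendsto (fun k : ℕ => f^[k] (OnePoint.some z)) atTop (𝓝 OnePoint.infty)}

/-- `μ` is an invariant line field of `P / Q` supported on the Julia set; it is of absolute value
one on the set `S` of positive measure, and vanishes off `S`. -/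
structure LineField (P Q : ℂ[X]) (f : OnePoint ℂ → OnePoint ℂ) (μ : ℂ → ℂ) (S : Set ℂ) : Prop where
  meas : Measurable μ
  one : ∀ z ∈ S, ‖μ z‖ = 1
  off : ∀ z, z ∉ S → μ z = 0
  pos : 0 < volume S
  sub : S ⊆ julia f
  inv : ∀ᵐ z : ℂ,
    μ (map P Q z) * (starRingEnd ℂ (deriv (map P Q) z) / deriv (map P Q) z) = μ z

/-- `P / Q` is a rational map, the points of the plane which do not escape have area at most `v`,
the Julia set is a part of this set, and so is (the support of) every invariant line field. -/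
def SmallJulia (P Q : ℂ[X]) (v : ℝ) : Prop :=
  (∃ f, IsRationalMap P Q f) ∧ ∀ f, IsRationalMap P Q f →
    volume (bounded f) ≤ ENNReal.ofReal v ∧ julia f ⊆ bounded f ∧
    volume (julia f) ≤ ENNReal.ofReal v ∧
    ∀ (μ : ℂ → ℂ) (S : Set ℂ), LineField P Q f μ S → volume S ≤ ENNReal.ofReal v

/-- `P / Q` is a rational map, every critical point (point where the map is not locally injective)
and almost every point of the plane escapes, the Julia set has area zero, and there is no invariant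
line field on the Julia set. -/
def NullJulia (P Q : ℂ[X]) : Prop :=
  (∃ f, IsRationalMap P Q f) ∧ ∀ f, IsRationalMap P Q f →
    (∀ c : OnePoint ℂ, (¬ ∃ U ∈ 𝓝 c, Set.InjOn f U) →
      Tendsto (fun k : ℕ => f^[k] c) atTop (𝓝 OnePoint.infty)) ∧
    volume (bounded f) = 0 ∧ volume (julia f) = 0 ∧
    ¬ ∃ (μ : ℂ → ℂ) (S : Set ℂ), LineField P Q f μ S

/-- The data: `A` and `B` have degree at most `D`, `q` has degree at most `2 D`, all coefficients
have absolute value at most `S`, and `|A|`, `|B| ≥ 1 / S` in the closed unit disc. -/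
structure Admissible (S : ℝ) (D : ℕ) (A B q : ℂ[X]) : Prop where
  degA : A.natDegree ≤ D
  degB : B.natDegree ≤ D
  degq : q.natDegree ≤ 2 * D
  coeffA : ∀ i, ‖A.coeff i‖ ≤ S
  coeffB : ∀ i, ‖B.coeff i‖ ≤ S
  coeffq : ∀ i, ‖q.coeff i‖ ≤ S
  lowerA : ∀ u : ℂ, ‖u‖ ≤ 1 → 1 ≤ S * ‖A.eval u‖
  lowerB : ∀ u : ℂ, ‖u‖ ≤ 1 → 1 ≤ S * ‖B.eval u‖

/-- `z ^ m` times `z ^ n A (1 / z) + B (z) / z ^ m + q (z) / z ^ D + t`; here
`reflect (n + m) A` is `z ^ (n + m) A (1 / z)`. -/
noncomputable def numer (D n m : ℕ) (A B q : ℂ[X]) (t : ℂ) : ℂ[X] :=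
  reflect (n + m) A + B + X ^ (m - D) * q + C t * X ^ m

/-- Every fixed triple of polynomials, with `A` and `B` zero-free in the closed unit disc, is
admissible for some constants. -/
theorem exists_admissible (A B q : ℂ[X]) (hA : ∀ u : ℂ, ‖u‖ ≤ 1 → A.eval u ≠ 0)
    (hB : ∀ u : ℂ, ‖u‖ ≤ 1 → B.eval u ≠ 0) : ∃ (S : ℝ) (D : ℕ), 1 ≤ D ∧ Admissible S D A B q := by
  have low : ∀ P : ℂ[X], (∀ u : ℂ, ‖u‖ ≤ 1 → P.eval u ≠ 0) →
      ∃ s : ℝ, 0 < s ∧ ∀ u : ℂ, ‖u‖ ≤ 1 → 1 ≤ s * ‖P.eval u‖ := by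
    intro P hP
    obtain ⟨u₀, hu₀, hmin⟩ := (isCompact_closedBall (0 : ℂ) 1).exists_isMinOn
      ⟨0, Metric.mem_closedBall_self zero_le_one⟩ (P.continuous.norm.continuousOn)
    have h0 : 0 < ‖P.eval u₀‖ := by
      rw [norm_pos_iff]
      apply hP
      rwa [Metric.mem_closedBall, dist_zero_right] at hu₀
    refine ⟨‖P.eval u₀‖⁻¹, by positivity, fun u hu => ?_⟩
    have h1 : ‖P.eval u₀‖ ≤ ‖P.eval u‖ := hmin (by
      show u ∈ Metric.closedBall (0 : ℂ) 1
      rwa [Metric.mem_closedBall, dist_zero_right])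
    rw [inv_mul_eq_div, le_div_iff₀ h0, one_mul]
    exact h1
  have up : ∀ P : ℂ[X], ∃ s : ℝ, 0 < s ∧ ∀ i, ‖P.coeff i‖ ≤ s := by
    intro P
    refine ⟨∑ i ∈ P.support, ‖P.coeff i‖ + 1, by positivity, fun i => ?_⟩
    by_cases hi : i ∈ P.support
    · have h1 := Finset.single_le_sum (f := fun i => ‖P.coeff i‖) (fun j _ => norm_nonneg _) hi
      linarith
    · rw [notMem_support_iff.1 hi, norm_zero]
      positivity
  obtain ⟨s₁, h₁, k₁⟩ := low A hA
  obtain ⟨s₂, h₂, k₂⟩ := low B hB
  obtain ⟨s₃, h₃, k₃⟩ := up A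
  obtain ⟨s₄, h₄, k₄⟩ := up B
  obtain ⟨s₅, h₅, k₅⟩ := up q
  refine ⟨s₁ + s₂ + s₃ + s₄ + s₅, A.natDegree + B.natDegree + q.natDegree + 1, by omega,
    by omega, by omega, by omega, fun i => ?_, fun i => ?_, fun i => ?_, fun u hu => ?_,
    fun u hu => ?_⟩
  · linarith [k₃ i]
  · linarith [k₄ i]
  · linarith [k₅ i]
  · nlinarith [k₁ u hu, norm_nonneg (A.eval u)]
  · nlinarith [k₂ u hu, norm_nonneg (B.eval u)]

theorem isRat {P Q : ℂ[X]} {f : OnePoint ℂ → OnePoint ℂ} (h : IsRationalMap P Q f) :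
    Helper114.Herman.IsRat f P Q := ⟨h.2.2.1, h.1, h.2.1, h.2.2.2⟩

theorem isRat' {P Q : ℂ[X]} {f : OnePoint ℂ → OnePoint ℂ} (h : Helper114.Herman.IsRat f P Q) :
    IsRationalMap P Q f := ⟨h.cop, h.ne, h.cont, h.eval⟩

/-- (0) Every triple `A`, `B`, `q` of polynomials with `A`, `B` zero-free in the closed unit disc is
admissible for some `S` and `D ≥ 1`.

Let `S`, `R` be real numbers and let `D ≥ 1`. There are `K` and `n₀` such that the following
holds for all `n ≥ n₀`, all `m` with `n ≤ R m`, `m ≤ R n` and all admissible `A`, `B`, `q`.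

(a) For all `t`, `numer` is `z ^ m` times the Laurent polynomial, and the rational map has degree
exactly `n + m`.

(b) For EVERY `t ∈ ℂ` the points of the plane which do not escape, the Julia set, and the support
of every invariant line field on the Julia set have area at most `K n ^ (-3/2)`.

(c) The area of the set of all `t ∈ ℂ` for which some critical point does not escape, or the Julia
set or the set of the points which do not escape is not a null set, is at most `K n ^ (-5/4)`, and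
these `t` have `|t| ≤ K`.

(d) For every `t ∈ ℂ` there is `t'` with `|t' - t| ≤ K n ^ (-5/8)` for which all critical points
escape and these are null sets.

(e) Moreover, let `m (n)` and admissible `A n`, `B n`, `q n`, with `n ≤ R m (n)` and `m (n) ≤ R n`, be
given for all large `n`. For Lebesgue almost every `t ∈ ℂ`, for ALL large `n` all critical points of
the map with the data `n`, `m (n)`, `A n`, `B n`, `q n`, `t` escape, the Julia set is a null set, and
there is no invariant line field on it. -/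
theorem result :
    (∀ A B q : ℂ[X], (∀ u : ℂ, ‖u‖ ≤ 1 → A.eval u ≠ 0) → (∀ u : ℂ, ‖u‖ ≤ 1 → B.eval u ≠ 0) →
      ∃ (S : ℝ) (D : ℕ), 1 ≤ D ∧ Admissible S D A B q) ∧
    ∀ (S R : ℝ) (D : ℕ), 1 ≤ D →
    (∃ (K : ℝ) (n₀ : ℕ), ∀ n m : ℕ, n₀ ≤ n → (n : ℝ) ≤ R * m → (m : ℝ) ≤ R * n →
      ∀ A B q : ℂ[X], Admissible S D A B q →
      (∀ t : ℂ, (∀ z : ℂ, z ≠ 0 → map (numer D n m A B q t) (X ^ m) z =
          z ^ n * A.eval (1 / z) + B.eval z / z ^ m + q.eval z / z ^ D + t) ∧
        max (numer D n m A B q t).natDegree (X ^ m : ℂ[X]).natDegree = n + m) ∧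
      (∀ t : ℂ, SmallJulia (numer D n m A B q t) (X ^ m) (K / (n : ℝ) ^ (3 / 2 : ℝ))) ∧
      volume {t : ℂ | ¬ NullJulia (numer D n m A B q t) (X ^ m)} ≤
        ENNReal.ofReal (K / (n : ℝ) ^ (5 / 4 : ℝ)) ∧
      (∀ t : ℂ, K < ‖t‖ → NullJulia (numer D n m A B q t) (X ^ m)) ∧
      ∀ t : ℂ, ∃ t' : ℂ, ‖t' - t‖ ≤ K / (n : ℝ) ^ (5 / 8 : ℝ) ∧
        NullJulia (numer D n m A B q t') (X ^ m)) ∧
    (∀ (m : ℕ → ℕ) (A B q : ℕ → ℂ[X]),
      (∀ᶠ n : ℕ in atTop, (n : ℝ) ≤ R * m n ∧ (m n : ℝ) ≤ R * n ∧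
        Admissible S D (A n) (B n) (q n)) →
      ∀ᵐ t : ℂ, ∀ᶠ n : ℕ in atTop,
        NullJulia (numer D n (m n) (A n) (B n) (q n) t) (X ^ (m n))) := by
  refine ⟨exists_admissible, fun S R D hD => ?_⟩
  obtain ⟨K, hK0, n₀, hn₀, hK⟩ := Pool.Agent.H214.Gap.null_main S R D hD
  have hadm : ∀ {A B q : ℂ[X]}, Admissible S D A B q → Pool.Agent.H214.Gap.Adm S D A B q :=
    fun h => ⟨h.degA, h.degB, h.degq, h.coeffA, h.coeffB, h.coeffq, h.lowerA, h.lowerB⟩
  have mk : ∀ n m : ℕ, n₀ ≤ n → (n : ℝ) ≤ R * m → (m : ℝ) ≤ R * n → ∀ A B q : ℂ[X],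
      Admissible S D A B q → ∀ t : ℂ, (∃ f, IsRationalMap (numer D n m A B q t) (X ^ m) f) ∧
      ∀ f, IsRationalMap (numer D n m A B q t) (X ^ m) f → julia f ⊆ bounded f := by
    intro n m hn h1 h2 A B q h3 t
    obtain ⟨r, R', h⟩ := (hK n m A B q hn h1 h2 (hadm h3)).2.2.1 t
    obtain ⟨f, hf⟩ := h.exists_isRat
    exact ⟨⟨f, isRat' hf⟩, fun f hf z hz => h.julia (isRat hf) hz⟩
  have nul : ∀ n m : ℕ, n₀ ≤ n → (n : ℝ) ≤ R * m → (m : ℝ) ≤ R * n → ∀ A B q : ℂ[X],
      Admissible S D A B q → ∀ t : ℂ,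
      Pool.Agent.H214.Gap.Esc (numer D n m A B q t) (X ^ m) →
      (∀ f, IsRationalMap (numer D n m A B q t) (X ^ m) f → volume (bounded f) = 0) →
      NullJulia (numer D n m A B q t) (X ^ m) := by
    intro n m hn h1 h2 A B q h3 t h7 h4
    obtain ⟨h5, h6⟩ := mk n m hn h1 h2 A B q h3 t
    refine ⟨h5, fun f hf => ⟨?_, h4 f hf, measure_mono_null (h6 f hf) (h4 f hf), ?_⟩⟩
    · obtain ⟨hc, g, hg1, hg2, hg3, hg4, hg5⟩ := h7
      obtain ⟨r, R', h⟩ := (hK n m A B q hn h1 h2 (hadm h3)).2.2.1 t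
      have e1 := (h.isRat_eq (isRat hf)).2
      have e2 := (h.isRat_eq ⟨hg1, hc, pow_ne_zero m X_ne_zero, hg2⟩).2
      rw [e1, ← e2]
      exact hg5
    rintro ⟨μ, X, hX⟩
    exact hX.pos.ne' (measure_mono_null (hX.sub.trans (h6 f hf)) (h4 f hf))
  have hvol : ∀ n m : ℕ, n₀ ≤ n → (n : ℝ) ≤ R * m → (m : ℝ) ≤ R * n → ∀ A B q : ℂ[X],
      Admissible S D A B q →
      volume {t : ℂ | ¬ NullJulia (numer D n m A B q t) (X ^ m)} ≤
        ENNReal.ofReal (K / (n : ℝ) ^ (5 / 4 : ℝ)) := by
    intro n m hn h1 h2 A B q h3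
    refine (measure_mono ?_).trans (hK n m A B q hn h1 h2 (hadm h3)).2.2.2.2.2
    intro t ht hcon
    exact ht (nul n m hn h1 h2 A B q h3 t hcon.1 fun f hf => hcon.2 f (isRat hf))
  refine ⟨⟨K + 1, n₀, ?_⟩, ?_⟩
  · intro n m hn h1 h2 A B q h3
    have hDn := (hK n m A B q hn h1 h2 (hadm h3)).1
    have hDm := (hK n m A B q hn h1 h2 (hadm h3)).2.1
    have hnpos : (0 : ℝ) < n := by exact_mod_cast (hn₀.trans hn)
    have hn1 : 1 ≤ n := hn₀.trans hn
    have hA := h3.degA
    have hB := h3.degB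
    have hq := h3.degq
    have hev : ∀ (t z : ℂ), z ≠ 0 → map (numer D n m A B q t) (X ^ m) z =
          z ^ n * A.eval (1 / z) + B.eval z / z ^ m + q.eval z / z ^ D + t := by
      intro t z hz
      have h4 := Pool.Agent.H214.Gap.num_eval (n := n) (m := m) (d := D) (A := A) (B := B)
        (q := q) (t := t) (by omega) hDm.le hz
      have h5 : (numer D n m A B q t).eval z =
          z ^ m * (Pool.Agent.H214.Gap.g n m D A B q z + t) := h4
      unfold map
      rw [h5, eval_pow, eval_X, mul_div_cancel_left₀ _ (pow_ne_zero _ hz)]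
      unfold Pool.Agent.H214.Gap.g Pool.Agent.H214.Gap.al Pool.Agent.H214.Gap.qu
      rw [one_div, inv_pow, inv_pow]
      field_simp
    refine ⟨fun t => ⟨hev t, ?_⟩, ?_, ?_, ?_, ?_⟩
    · -- the degree
      have hA0 : A.coeff 0 ≠ 0 := by
        intro h
        have h4 := h3.lowerA 0 (by rw [norm_zero]; exact zero_le_one)
        rw [← coeff_zero_eq_eval_zero, h, norm_zero, mul_zero] at h4
        linarith
      have hc1 : (reflect (n + m) A).coeff (n + m) = A.coeff 0 := by
        rw [coeff_reflect, revAt_le le_rfl, Nat.sub_self]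
      have hdeg : (numer D n m A B q t).natDegree = n + m := by
        apply natDegree_eq_of_le_of_coeff_ne_zero
        · unfold numer
          refine (natDegree_add_le _ _).trans (max_le ?_ ?_)
          · exact Pool.Agent.H214.Gap.P0_natDegree (by omega) (by omega) (by omega) hDm.le
          · refine (natDegree_C_mul_le _ _).trans ?_
            rw [natDegree_X_pow]
            omega
        · unfold numer
          rw [coeff_add, coeff_add, coeff_add, hc1,
            coeff_eq_zero_of_natDegree_lt (p := B) (by omega),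
            coeff_eq_zero_of_natDegree_lt (p := X ^ (m - D) * q) (by
              refine (natDegree_mul_le).trans_lt ?_
              rw [natDegree_X_pow]
              omega),
            coeff_eq_zero_of_natDegree_lt (p := C t * X ^ m) (by
              refine (natDegree_C_mul_le _ _).trans_lt ?_
              rw [natDegree_X_pow]
              omega), add_zero, add_zero, add_zero]
          exact hA0
      rw [hdeg, natDegree_X_pow]
      omega
    · intro t
      obtain ⟨h4, h5⟩ := mk n m hn h1 h2 A B q h3 t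
      refine ⟨h4, fun f hf => ?_⟩
      have h6 : volume (bounded f) ≤ ENNReal.ofReal ((K + 1) / (n : ℝ) ^ (3 / 2 : ℝ)) := by
        refine ((hK n m A B q hn h1 h2 (hadm h3)).2.2.2.1 t f (isRat hf)).trans
          (ENNReal.ofReal_le_ofReal ?_)
        exact div_le_div_of_nonneg_right (by linarith) (by positivity)
      refine ⟨h6, h5 f hf, (measure_mono (h5 f hf)).trans h6, ?_⟩
      intro μ X hX
      exact (measure_mono (hX.sub.trans (h5 f hf))).trans h6
    · refine (hvol n m hn h1 h2 A B q h3).trans (ENNReal.ofReal_le_ofReal ?_)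
      exact div_le_div_of_nonneg_right (by linarith) (by positivity)
    · intro t ht
      have h4 := (hK n m A B q hn h1 h2 (hadm h3)).2.2.2.2.1 t (by linarith)
      exact nul n m hn h1 h2 A B q h3 t h4.1 fun f hf => h4.2 f (isRat hf)
    · intro t
      have hr : 0 < (K + 1) / (n : ℝ) ^ (5 / 8 : ℝ) := by positivity
      obtain ⟨t', h4, h5⟩ := Pool.Agent.H214.Gap.exists_near hr (hvol n m hn h1 h2 A B q h3) (by
        have e : ((n : ℝ) ^ (5 / 8 : ℝ)) ^ 2 = (n : ℝ) ^ (5 / 4 : ℝ) := by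
          rw [← Real.rpow_natCast, ← Real.rpow_mul hnpos.le]
          norm_num
        rw [div_pow, e, mul_div_assoc', div_lt_div_iff_of_pos_right (by positivity)]
        nlinarith [Real.pi_gt_three]) t
      exact ⟨t', h4, not_not.1 h5⟩
  · intro m A B q h
    obtain ⟨n₁, hn₁⟩ := eventually_atTop.1 h
    exact Pool.Agent.H214.Gap.ae_good (n₀ := max n₀ n₁)
      (P := fun n t => NullJulia (numer D n (m n) (A n) (B n) (q n) t) (X ^ (m n)))
      (fun n hn => hvol n (m n) ((le_max_left _ _).trans hn)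
        (hn₁ n ((le_max_right _ _).trans hn)).1 (hn₁ n ((le_max_right _ _).trans hn)).2.1 _ _ _
        (hn₁ n ((le_max_right _ _).trans hn)).2.2)

end Pool.Agent.Results.MP_70a088_an.LaurentGapsNullJulia
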