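import Pool.Agent.H211.NF.Core
import Pool.Agent.H401.NF211.CMP
import Pool.Agent.H663.NF211.APP
import Pool.Agent.H48.NF211.FAT

/-!
# All rational maps near a Collet-Eckmann rational map: Julia sets and invariant line fields have small area

Let `f = P / Q` be a rational map of degree `d ≥ 2`, normalised so that `∞` lies in the basin of an
attracting cycle which does not contain `∞`. Suppose that every critical point which is not attracted
by an attracting cycle satisfies the Collet-Eckmann condition. The critical points may be multiple,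
there may be several of them in the Julia set, and nothing is assumed about their recurrence.

(1) EVERY rational map `g` whose coefficients are within `r` of those of `f` (`r` small) has degree `d`,
and the area of the set of the points of the plane which are not attracted by attracting cycles of
`g`, together with the Julia set of `g`, is at most `C r ^ c`. In particular the support of every invariant
line field of `g` has area at most `C r ^ c`. Nothing is assumed about the critical points of `g`.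

(2) For all directions `(H, G)` outside at most `4 (d - 1)` proper subspaces the area of the set of the `s`,
`|s| < r`, such that the Julia set of `(P + s H) / (Q + s G)` has positive area or this map has an invariant
line field is at most `C r ^ (2 + c)`; and the proportion of these maps in the ball of radius `r` around `f` in the
full space of the coefficients tends to zero with `r`.

Method for (1): for `f` the area of the set of the points whose `n`-th iterate is close to the set `K` of
the points which are not attracted decays exponentially (`Pool/Agent/H211/AD/Asm.lean`, `decay`); this is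
proved by counting the inverse branches along which a critical point is met, without slow recurrence. The
orbits of the points which are not attracted by `g` stay close to `K`, and shadow orbits of `f` during a
time `log (1 / r) / log L`.
-/

set_option autoImplicit false

open MeasureTheory Filter Metric Topology Polynomial
open scoped OnePoint

namespace Pool.Agent.Results.MP_70a088_an.NearColletEckmannRational

/-- The space of the coefficients of the pairs of polynomials of degree at most `d`. -/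
abbrev Coeffs (d : ℕ) : Type := Fin 2 × Fin (d + 1) → ℂ

/-- The numerator: the polynomial with the coefficients `x (0, 0), …, x (0, d)`. -/
noncomputable def num {d : ℕ} (x : Coeffs d) : ℂ[X] := ∑ i : Fin (d + 1), C (x (0, i)) * X ^ (i : ℕ)

/-- The denominator: the polynomial with the coefficients `x (1, 0), …, x (1, d)`. -/
noncomputable def den {d : ℕ} (x : Coeffs d) : ℂ[X] := ∑ i : Fin (d + 1), C (x (1, i)) * X ^ (i : ℕ)

/-- The rational function `P / Q` as a map of the plane (with junk value at the poles). -/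
noncomputable def plane (P Q : ℂ[X]) : ℂ → ℂ := fun z => P.eval z / Q.eval z

/-- The polynomial `P' Q - P Q'`. Its zeros outside the poles are the finite critical points of
`P / Q` which are not poles. -/
noncomputable def critPoly (P Q : ℂ[X]) : ℂ[X] := derivative P * Q - P * derivative Q

/-- `f` is the rational map `P / Q` of the Riemann sphere, in lowest terms. -/
def IsRationalMap (P Q : ℂ[X]) (f : OnePoint ℂ → OnePoint ℂ) : Prop :=
  IsCoprime P Q ∧ Q ≠ 0 ∧ Continuous f ∧
    ∀ z : ℂ, Q.eval z ≠ 0 → f (OnePoint.some z) = OnePoint.some (P.eval z / Q.eval z)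

/-- The point `x` of the sphere lies in the basin of an attracting cycle of `f` which does not pass
through `∞`. Here `g` is the restriction of `f` to the plane. -/
def Attracted (f : OnePoint ℂ → OnePoint ℂ) (g : ℂ → ℂ) (x : OnePoint ℂ) : Prop :=
  ∃ n : ℕ, 0 < n ∧ ∃ z : ℂ, (∀ i : ℕ, f^[i] (z : OnePoint ℂ) ≠ ∞) ∧
    f^[n] (z : OnePoint ℂ) = (z : OnePoint ℂ) ∧ ‖deriv (g^[n]) z‖ < 1 ∧
    Tendsto (fun k : ℕ => f^[n * k] x) atTop (𝓝 (z : OnePoint ℂ))

/-- The Collet-Eckmann condition for the critical point `c`: the derivatives of the iterates at the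
critical value grow exponentially. -/
def ColletEckmann (g : ℂ → ℂ) (c : ℂ) : Prop :=
  ∃ μ : ℝ, 1 < μ ∧ ∀ᶠ n : ℕ in atTop, μ ^ n ≤ ‖deriv (g^[n]) (g c)‖

/-- The Fatou set: the points with a neighbourhood on which the iterates are equicontinuous (the
neighbourhoods `W` of the diagonal are the entourages of the uniform structure of the sphere). -/
def fatou (f : OnePoint ℂ → OnePoint ℂ) : Set (OnePoint ℂ) :=
  {x | ∃ U ∈ 𝓝 x, ∀ y ∈ U, ∀ W ∈ 𝓝ˢ (Set.diagonal (OnePoint ℂ)),
    ∀ᶠ z in 𝓝 y, ∀ n : ℕ, (f^[n] y, f^[n] z) ∈ W}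

/-- The finite points of the Julia set. -/
def julia (f : OnePoint ℂ → OnePoint ℂ) : Set ℂ := {z : ℂ | OnePoint.some z ∉ fatou f}

/-- The finite points which are not attracted by an attracting cycle in the plane. -/
def outside (f : OnePoint ℂ → OnePoint ℂ) (g : ℂ → ℂ) : Set ℂ :=
  {z : ℂ | ¬ Attracted f g (z : OnePoint ℂ)}

/-- `μ` is an invariant line field of `P / Q` supported on the Julia set; it is of absolute value
one on the set `S` of positive measure, and vanishes off `S`. -/
structure LineField (P Q : ℂ[X]) (f : OnePoint ℂ → OnePoint ℂ) (μ : ℂ → ℂ) (S : Set ℂ) : Prop where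
  meas : Measurable μ
  one : ∀ z ∈ S, ‖μ z‖ = 1
  off : ∀ z, z ∉ S → μ z = 0
  pos : 0 < volume S
  sub : S ⊆ julia f
  inv : ∀ᵐ z : ℂ,
    μ (plane P Q z) * (starRingEnd ℂ (deriv (plane P Q) z) / deriv (plane P Q) z) = μ z

/-- The coefficients `x` define a rational map `f` of the sphere of degree `d`; the area of the union
of its Julia set and of the set of the points which are not attracted is at most `a`, and so is the
area of the support of every invariant line field. -/
def Bound {d : ℕ} (x : Coeffs d) (a : ENNReal) : Prop :=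
  max (num x).natDegree (den x).natDegree = d ∧ ∃ f : OnePoint ℂ → OnePoint ℂ,
    IsRationalMap (num x) (den x) f ∧
    volume (julia f ∪ outside f (plane (num x) (den x))) ≤ a ∧
    ∀ (μ : ℂ → ℂ) (S : Set ℂ), LineField (num x) (den x) f μ S → volume S ≤ a

/-- from the area of the set of the points which are not attracted -/
theorem bound_of {d : ℕ} (hd : 2 ≤ d) {x : Coeffs d} {a : ENNReal}
    (h1 : IsCoprime (Pool.Agent.H211.LR.PP x) (Pool.Agent.H211.LR.QQ x))
    (h2 : (Pool.Agent.H211.LR.QQ x).natDegree = d)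
    (h4 : volume {z : ℂ | ¬ Pool.Agent.H792R2.CE.Att d (Pool.Agent.H211.LR.PP x)
      (Pool.Agent.H211.LR.QQ x) (z : OnePoint ℂ)} ≤ a) : Bound x a := by
  have hPx : Pool.Agent.H211.LR.PP x = num x := rfl
  have hQx : Pool.Agent.H211.LR.QQ x = den x := rfl
  rw [hPx, hQx] at h1 h4
  rw [hQx] at h2
  have hP : (num x).natDegree ≤ d := by rw [← hPx]; exact Pool.Agent.H211.LR.PP_deg x
  have hmax : max (num x).natDegree (den x).natDegree = d := by rw [h2]; exact max_eq_right hP
  have hQ0 : den x ≠ 0 := by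
    intro h
    rw [h, natDegree_zero] at h2
    omega
  have hcont : Continuous (Pool.Agent.H792R2.CE.sph d (num x) (den x)) :=
    Pool.Agent.H792R2.CE.B1_continuous h1 hP h2
  have hev : ∀ z : ℂ, (den x).eval z ≠ 0 → Pool.Agent.H792R2.CE.sph d (num x) (den x)
      (OnePoint.some z) = OnePoint.some ((num x).eval z / (den x).eval z) := fun z hz =>
    Pool.Agent.H792R2.CE.sph_coe_of_ne hz
  have hrat : Pool.Agent.Helper114.Herman.IsRat (Pool.Agent.H792R2.CE.sph d (num x) (den x))
      (num x) (den x) := ⟨hcont, h1, hQ0, hev⟩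
  have hsub : julia (Pool.Agent.H792R2.CE.sph d (num x) (den x)) ∪
      outside (Pool.Agent.H792R2.CE.sph d (num x) (den x)) (plane (num x) (den x)) ⊆
      {z : ℂ | ¬ Pool.Agent.H792R2.CE.Att d (num x) (den x) (z : OnePoint ℂ)} := by
    rintro z (hz | hz)
    · intro h
      exact hz (Pool.Agent.H48.NF211.t_FAT d (num x) (den x) hd hrat hmax _ h)
    · exact hz
  have hvol := (measure_mono hsub).trans h4
  refine ⟨hmax, _, ⟨h1, hQ0, hcont, hev⟩, hvol, ?_⟩
  intro μ S hS
  exact (measure_mono (hS.sub.trans Set.subset_union_left)).trans hvol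

/-- a map all of whose critical points are attracted has a null Julia set -/
theorem bound_good {d : ℕ} (hd : 2 ≤ d) {x : Coeffs d}
    (hx : ¬ Bound x 0) : x ∈ Pool.Agent.H211.LR.rbad d := by
  by_contra h
  have hgood : Pool.Agent.H211.LR.GoodR d (Pool.Agent.H211.LR.PP x) (Pool.Agent.H211.LR.QQ x) := by
    by_contra h'
    exact h h'
  obtain ⟨hc, hPd, hQd, hinf, hcr⟩ := hgood
  obtain ⟨h1, -⟩ := Pool.Agent.H211.AD.rfinal hd hc hQd hinf (fun c hc => Or.inl (hcr c hc))
  exact hx (bound_of hd hc hQd h1.le)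

/-- **Julia sets and invariant line fields of all the rational maps near a rational map whose critical
points are attracted or Collet-Eckmann.** -/
theorem result (d : ℕ) (hd : 2 ≤ d) (x₀ : Coeffs d)
    (hdeg : max (num x₀).natDegree (den x₀).natDegree = d) (f : OnePoint ℂ → OnePoint ℂ)
    (hf : IsRationalMap (num x₀) (den x₀) f) (hinf : Attracted f (plane (num x₀) (den x₀)) ∞)
    (hCE : ∀ c : ℂ, (critPoly (num x₀) (den x₀)).eval c = 0 →
      Attracted f (plane (num x₀) (den x₀)) (c : OnePoint ℂ) ∨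
        ColletEckmann (plane (num x₀) (den x₀)) c) :
    (∃ c > (0 : ℝ), ∃ K > (0 : ℝ), ∃ r₀ > (0 : ℝ), ∀ r : ℝ, 0 < r → r < r₀ →
      ∀ x : Coeffs d, ‖x - x₀‖ ≤ r → Bound x (ENNReal.ofReal (K * r ^ c))) ∧
    (∃ 𝒱 : Finset (Submodule ℂ (Coeffs d)), 𝒱.card ≤ 4 * (d - 1) ∧ (∀ V ∈ 𝒱, V ≠ ⊤) ∧
      ∀ b : Coeffs d, (∀ V ∈ 𝒱, b ∉ V) →
        ∃ c > (0 : ℝ), ∃ K > (0 : ℝ), ∃ r₁ > (0 : ℝ), ∀ r : ℝ, 0 < r → r < r₁ →
          volume {s : ℂ | ‖s‖ < r ∧ ¬ Bound (x₀ + s • b) 0} ≤
            ENNReal.ofReal (K * r ^ ((2 : ℝ) + c))) ∧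
    Tendsto (fun r : ℝ => volume {x | x ∈ ball x₀ r ∧ ¬ Bound x 0} / volume (ball x₀ r))
      (𝓝[>] 0) (𝓝 0) := by
  obtain ⟨hx, hQ0, hfc, hfe⟩ := hf
  obtain ⟨P, hPx⟩ : ∃ P, P = num x₀ := ⟨_, rfl⟩
  obtain ⟨Q, hQx⟩ : ∃ Q, Q = den x₀ := ⟨_, rfl⟩
  rw [← hPx, ← hQx] at hx hdeg hfe hinf hCE
  rw [← hQx] at hQ0
  have hd0 : 0 < d := by omega
  have hP : P.natDegree ≤ d := hdeg ▸ le_max_left _ _
  have hQle : Q.natDegree ≤ d := hdeg ▸ le_max_right _ _
  have hfinf : f ∞ ≠ ∞ := by
    intro h
    obtain ⟨n, -, z, -, -, -, ht⟩ := hinf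
    have h1 : ∀ k : ℕ, f^[k] (∞ : OnePoint ℂ) = ∞ := by
      intro k
      induction k with
      | zero => rfl
      | succ k ih => rw [Function.iterate_succ_apply', ih, h]
    have h2 : Tendsto (fun _ : ℕ => (∞ : OnePoint ℂ)) atTop (𝓝 (z : OnePoint ℂ)) :=
      ht.congr fun k => h1 _
    exact OnePoint.coe_ne_infty z (tendsto_nhds_unique h2 tendsto_const_nhds)
  have hrat : Pool.Agent.Helper114.Herman.IsRat f P Q := ⟨hfc, hx, hQ0, hfe⟩
  have hfs : f = Pool.Agent.H792R2.CE.sph d P Q := by
    funext y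
    induction y using OnePoint.rec with
    | infty =>
      have h1 := Pool.Agent.Helper114.Herman.rat_formula hrat hdeg.symm hd0 (u := 1) (v := 0)
        (Or.inl one_ne_zero)
      rw [Pool.Agent.Helper114.Herman.pr_zero, Pool.Agent.Helper114.Herman.hom_zero,
        Pool.Agent.Helper114.Herman.hom_zero, one_pow, mul_one, mul_one] at h1
      rw [h1]
      rfl
    | coe z =>
      have h1 := Pool.Agent.Helper114.Herman.rat_formula hrat hdeg.symm hd0 (u := z) (v := 1)
        (Or.inr one_ne_zero)
      rw [Pool.Agent.Helper114.Herman.pr_one, Pool.Agent.Helper114.Herman.hom_ne hP one_ne_zero,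
        Pool.Agent.Helper114.Herman.hom_ne hQle one_ne_zero, one_pow, one_mul, one_mul,
        div_one] at h1
      rw [h1]
      rfl
  have hQd : Q.natDegree = d := by
    refine le_antisymm hQle (Polynomial.le_natDegree_of_ne_zero ?_)
    intro h0
    apply hfinf
    rw [hfs, Pool.Agent.H792R2.CE.sph_infty, h0, Pool.Agent.Helper114.Herman.pr_zero]
  have hatt : ∀ y, Attracted f (plane P Q) y ↔ Pool.Agent.H792R2.CE.Att d P Q y := by
    intro y
    rw [hfs]
    exact Iff.rfl
  have hinf' : Pool.Agent.H792R2.CE.Att d P Q ∞ := (hatt ∞).1 hinf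
  have hPP : Pool.Agent.H211.LR.PP x₀ = P := hPx.symm
  have hQQ : Pool.Agent.H211.LR.QQ x₀ = Q := hQx.symm
  have hCE' : ∀ c : ℂ, (Pool.Agent.H792R2.CE.wr (Pool.Agent.H211.LR.PP x₀)
      (Pool.Agent.H211.LR.QQ x₀)).eval c = 0 →
      Pool.Agent.H792R2.CE.Att d (Pool.Agent.H211.LR.PP x₀) (Pool.Agent.H211.LR.QQ x₀)
        (c : OnePoint ℂ) ∨
      ∃ μ : ℝ, 1 < μ ∧ ∀ᶠ n : ℕ in atTop,
        μ ^ n ≤ ‖deriv ((Pool.Agent.H792R2.CE.rf (Pool.Agent.H211.LR.PP x₀)
          (Pool.Agent.H211.LR.QQ x₀))^[n]) (Pool.Agent.H792R2.CE.rf (Pool.Agent.H211.LR.PP x₀)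
          (Pool.Agent.H211.LR.QQ x₀) c)‖ := by
    rw [hPP, hQQ]
    intro c hc
    rcases hCE c hc with h | h
    · exact Or.inl ((hatt _).1 h)
    · exact Or.inr h
  have g1 : IsCoprime (Pool.Agent.H211.LR.PP x₀) (Pool.Agent.H211.LR.QQ x₀) := by
    rw [hPP, hQQ]; exact hx
  have g2 : (Pool.Agent.H211.LR.QQ x₀).natDegree = d := by rw [hQQ]; exact hQd
  have g3 : Pool.Agent.H792R2.CE.Att d (Pool.Agent.H211.LR.PP x₀) (Pool.Agent.H211.LR.QQ x₀) ∞ := by
    rw [hPP, hQQ]; exact hinf'
  refine ⟨?_, ?_⟩
  · obtain ⟨c, hc, K, hK, r₀, hr₀, H⟩ := Pool.Agent.H211.NF.near_area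
      Pool.Agent.H401.NF211.t_CMP Pool.Agent.H663.NF211.t_APP hd g1 g2 g3 hCE'
    refine ⟨c, hc, K, hK, r₀, hr₀, fun r hr hrr x hxx => ?_⟩
    obtain ⟨h1, h2, -, h4⟩ := H r hr hrr x hxx
    exact bound_of hd h1 h2 h4
  · obtain ⟨-, ⟨𝒱, h2, h3, h4⟩, h5⟩ := Pool.Agent.H211.AD.rfinal (x₀ := x₀) hd g1 g2 g3 hCE'
    refine ⟨⟨𝒱, h2, h3, fun b hb => ?_⟩, ?_⟩
    · obtain ⟨c, hc, K, hK, r₁, hr₁, h6⟩ := h4 b hb
      refine ⟨c, hc, K, hK, r₁, hr₁, fun r hr hrr => (measure_mono ?_).trans (h6 r hr hrr)⟩
      rintro s ⟨hs, hs2⟩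
      exact ⟨hs, bound_good hd hs2⟩
    · refine tendsto_of_tendsto_of_tendsto_of_le_of_le tendsto_const_nhds h5 (fun _ => zero_le)
        fun r => ?_
      apply ENNReal.div_le_div_right
      apply measure_mono
      rintro y ⟨hy1, hy2⟩
      exact ⟨bound_good hd hy2, hy1⟩

end Pool.Agent.Results.MP_70a088_an.NearColletEckmannRational
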